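import Mathlib

set_option autoImplicit false

namespace Pool.Agent.Results.MP_2beb52_al.BaseGap

/-- `B` is a base: its pointwise stabilizer is trivial -/
def IsBase (G : Type) [Group G] {S : Type} [MulAction G S] (B : Finset S) : Prop :=
  ∀ g : G, (∀ x ∈ B, g • x = x) → g = 1

/-- the base size set: base sizes of all faithful actions on finite sets -/
def BaseSizeSet (G : Type) [Group G] : Set ℕ :=
  {b | ∃ (S : Type) (_ : Finite S) (_ : MulAction G S), FaithfulSMul G S ∧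
    IsLeast {n | ∃ B : Finset S, IsBase G B ∧ B.card = n} b}

def xr (a b : Fin 16) : Fin 16 := ⟨(a.1 ^^^ b.1) % 16, Nat.mod_lt _ (by norm_num)⟩

def par (n : ℕ) : ℕ := (n % 2 + n / 2 % 2 + n / 4 % 2 + n / 8 % 2) % 2

def full (v : Fin 16) : ℕ := v.1 + 16 * par v.1

def act (k : Fin 5) (v : Fin 16) : Fin 16 :=
  ⟨((full v * 2 ^ k.1) % 32 + full v * 2 ^ k.1 / 32) % 16, Nat.mod_lt _ (by norm_num)⟩

def dot (a b : Fin 16) : ℕ := par (a.1 &&& b.1)

structure G where
  v : Fin 16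
  k : Fin 5
  deriving DecidableEq, Fintype

lemma xr_assoc : ∀ a b c, xr (xr a b) c = xr a (xr b c) := by decide +kernel
lemma act_xr : ∀ k a b, act k (xr a b) = xr (act k a) (act k b) := by decide +kernel
lemma act_add : ∀ k l a, act (k + l) a = act k (act l a) := by decide +kernel

instance : Mul G := ⟨fun a b => ⟨xr a.v (act a.k b.v), a.k + b.k⟩⟩
instance : One G := ⟨⟨0, 0⟩⟩
instance : Inv G := ⟨fun a => ⟨act (-a.k) a.v, -a.k⟩⟩

lemma mul_def (a b : G) : a * b = ⟨xr a.v (act a.k b.v), a.k + b.k⟩ := rfl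

instance : Group G := Group.ofLeftAxioms
  (fun a b c => by simp only [mul_def, xr_assoc, act_xr, act_add, add_assoc])
  (by decide +kernel) (by decide +kernel)

def bit (v : Fin 16) (i : Fin 5) : Fin 2 := ⟨full v / 2 ^ i.1 % 2, Nat.mod_lt _ (by norm_num)⟩

instance : SMul G (Fin 5 × Fin 2) := ⟨fun g p => (p.1 + g.k, p.2 + bit g.v (p.1 + g.k))⟩

lemma bit_xr : ∀ a b i, bit (xr a b) i = bit a i + bit b i := by decide +kernel
lemma bit_act : ∀ k a i, bit (act k a) (i + k) = bit a i := by decide +kernel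

lemma smul_def (g : G) (p : Fin 5 × Fin 2) :
    g • p = (p.1 + g.k, p.2 + bit g.v (p.1 + g.k)) := rfl

instance : MulAction G (Fin 5 × Fin 2) where
  one_smul := by decide +kernel
  mul_smul a b p := by
    simp only [smul_def, mul_def, bit_xr]
    have e : p.1 + (a.k + b.k) = p.1 + b.k + a.k := by abel
    rw [e, bit_act]
    congr 1
    abel

lemma base4 : IsBase G ({(0, 0), (1, 0), (2, 0), (3, 0)} : Finset (Fin 5 × Fin 2)) := by
  unfold IsBase
  decide +kernel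

lemma four_mem : 4 ∈ BaseSizeSet G := by
  refine ⟨Fin 5 × Fin 2, inferInstance, inferInstance, ⟨?_⟩, ⟨_, base4, rfl⟩, ?_⟩
  · intro a b h
    have : b⁻¹ * a = 1 := base4 _ (fun x _ => by rw [mul_smul, h, inv_smul_smul])
    exact (inv_mul_eq_one.1 this).symm
  · rintro n ⟨B, hB, rfl⟩
    by_contra hlt
    have h1 : (B.image Prod.fst).card ≤ 3 := Finset.card_image_le.trans (by omega)
    have h2 : 1 < (B.image Prod.fst)ᶜ.card := by
      rw [Finset.card_compl, Fintype.card_fin]; omega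
    obtain ⟨i, hi, j, hj, hij⟩ := Finset.one_lt_card.1 h2
    have key : ∀ i j : Fin 5, i ≠ j → ∃ g : G, g ≠ 1 ∧
        ∀ p : Fin 5 × Fin 2, p.1 ≠ i → p.1 ≠ j → g • p = p := by decide +kernel
    obtain ⟨g, hg, hp⟩ := key i j hij
    apply hg
    apply hB
    intro x hx
    have hx' : x.1 ∈ B.image Prod.fst := Finset.mem_image_of_mem _ hx
    rw [Finset.mem_compl] at hi hj
    exact hp x (fun h => hi (h ▸ hx')) (fun h => hj (h ▸ hx'))

def tr (v : Fin 16) : G := ⟨v, 0⟩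

lemma tr_mul : ∀ a b, tr a * tr b = tr (xr a b) := by decide +kernel

lemma dich (H : Subgroup G) :
    (∃ φ : Fin 16, ∀ v, dot φ v = 0 → tr v ∈ H) ∨
    (∃ g : G, ∀ h : G, h ∈ H → g⁻¹ * h * g ∈ H → h = 1) := by
  have hx : ∀ a b, tr a ∈ H → tr b ∈ H → tr (xr a b) ∈ H := fun a b ha hb => by
    rw [← tr_mul]; exact H.mul_mem ha hb
  have h0 : tr 0 ∈ H := H.one_mem
  by_cases hV : ∀ h ∈ H, h.k = 0
  · by_cases h2 : ∃ u1 u2, ∀ v, tr v ∈ H → v = 0 ∨ v = u1 ∨ v = u2 ∨ v = xr u1 u2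
    · right
      obtain ⟨u1, u2, hu⟩ := h2
      have key : ∀ u1 u2 : Fin 16, ∃ k : Fin 5, ∀ v, (v = 0 ∨ v = u1 ∨ v = u2 ∨ v = xr u1 u2) →
          (act k v = 0 ∨ act k v = u1 ∨ act k v = u2 ∨ act k v = xr u1 u2) → v = 0 := by
        decide +kernel
      obtain ⟨k, hk⟩ := key u1 u2
      refine ⟨⟨0, -k⟩, fun h hh hc => ?_⟩
      have e1 : h = tr h.v := by
        have := hV h hh
        cases h; simp only [tr] at *; rw [this]
      have e2 : ∀ (k : Fin 5) v, (⟨0, -k⟩ : G)⁻¹ * tr v * ⟨0, -k⟩ = tr (act k v) := by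
        decide +kernel
      rw [e1] at hh hc
      rw [e2] at hc
      rw [e1, hk _ (hu _ hh) (hu _ hc)]
      rfl
    · left
      push Not at h2
      obtain ⟨u1, a1, b1, -, -, -⟩ := h2 0 0
      obtain ⟨u2, a2, b2, c2, -, -⟩ := h2 u1 0
      obtain ⟨u3, a3, b3, c3, d3, e3⟩ := h2 u1 u2
      have key : ∀ u1 u2 u3 : Fin 16, u1 ≠ 0 → u2 ≠ 0 → u2 ≠ u1 → u3 ≠ 0 → u3 ≠ u1 → u3 ≠ u2 →
          u3 ≠ xr u1 u2 → ∃ φ : Fin 16, ∀ v, dot φ v = 0 →
            v = 0 ∨ v = u1 ∨ v = u2 ∨ v = xr u1 u2 ∨ v = u3 ∨ v = xr u1 u3 ∨ v = xr u2 u3 ∨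
              v = xr (xr u1 u2) u3 := by
        decide +kernel
      obtain ⟨φ, hφ⟩ := key u1 u2 u3 b1 b2 c2 b3 c3 d3 e3
      refine ⟨φ, fun v hv => ?_⟩
      rcases hφ v hv with rfl | rfl | rfl | rfl | rfl | rfl | rfl | rfl
      exacts [h0, a1, a2, hx _ _ a1 a2, a3, hx _ _ a1 a3, hx _ _ a2 a3, hx _ _ (hx _ _ a1 a2) a3]
  · push Not at hV
    obtain ⟨h, hh, hk⟩ := hV
    by_cases hW : ∀ v, tr v ∈ H → v = 0
    · right
      refine ⟨tr 1, fun y hy hc => ?_⟩
      have h1 : y⁻¹ * ((tr 1)⁻¹ * y * tr 1) ∈ H := H.mul_mem (H.inv_mem hy) hc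
      have key : ∀ y : G, ∃ w, y⁻¹ * ((tr 1)⁻¹ * y * tr 1) = tr w ∧ (w = 0 → y = tr y.v) := by
        decide +kernel
      obtain ⟨w, hw1, hw2⟩ := key y
      rw [hw1] at h1
      have e1 := hw2 (hW _ h1)
      rw [e1] at hy
      rw [e1, hW _ hy]
      rfl
    · left
      push Not at hW
      obtain ⟨w, hw, hw0⟩ := hW
      have e : ∀ (h : G) v, h * tr v * h⁻¹ = tr (act h.k v) := by decide +kernel
      have hc : ∀ v, tr v ∈ H → tr (act h.k v) ∈ H := fun v hv => by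
        rw [← e]; exact H.mul_mem (H.mul_mem hh hv) (H.inv_mem hh)
      have key : ∀ (k : Fin 5) (w v : Fin 16), k ≠ 0 → w ≠ 0 → ∃ a b c d : Bool,
          v = xr (xr (if a then w else 0) (if b then act k w else 0))
            (xr (if c then act k (act k w) else 0) (if d then act k (act k (act k w)) else 0)) := by
        decide +kernel
      refine ⟨0, fun v _ => ?_⟩
      obtain ⟨a, b, c, d, rfl⟩ := key h.k w v hk hw0
      have w1 := hc _ hw
      have w2 := hc _ w1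
      have w3 := hc _ w2
      refine hx _ _ (hx _ _ ?_ ?_) (hx _ _ ?_ ?_) <;> split_ifs <;> assumption

lemma three_not_mem : 3 ∉ BaseSizeSet G := by
  classical
  rintro ⟨S, _, _, _, ⟨B, hB, hc⟩, hmin⟩
  have hD : ∀ x : S, ∃ φ : Fin 16, ∀ v, dot φ v = 0 → tr v • x = x := by
    intro x
    rcases dich (MulAction.stabilizer G x) with h | ⟨g, hg⟩
    · exact h
    · exfalso
      have h1 : IsBase G ({x, g • x} : Finset S) := by
        intro h hh
        apply hg h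
        · exact hh x (by simp)
        · have := hh (g • x) (by simp)
          rw [MulAction.mem_stabilizer_iff, mul_smul, mul_smul, this, inv_smul_smul]
      have h2 : 3 ≤ ({x, g • x} : Finset S).card := hmin ⟨_, h1, rfl⟩
      have h3 : ({x, g • x} : Finset S).card ≤ 2 := Finset.card_le_two
      omega
  obtain ⟨x, y, z, -, -, -, rfl⟩ := Finset.card_eq_three.1 hc
  obtain ⟨a, ha⟩ := hD x
  obtain ⟨b, hb⟩ := hD y
  obtain ⟨c, hc'⟩ := hD z
  have key : ∀ a b c : Fin 16, ∃ v, tr v ≠ 1 ∧ dot a v = 0 ∧ dot b v = 0 ∧ dot c v = 0 := by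
    decide +kernel
  obtain ⟨v, hv, h1, h2, h3⟩ := key a b c
  apply hv
  apply hB
  intro p hp
  simp only [Finset.mem_insert, Finset.mem_singleton] at hp
  rcases hp with rfl | rfl | rfl
  exacts [ha v h1, hb v h2, hc' v h3]

theorem result : ∃ (P : Type) (_ : Group P), Nat.card P = 80 ∧
    4 ∈ BaseSizeSet P ∧ 3 ∉ BaseSizeSet P :=
  ⟨G, inferInstance, by rw [Nat.card_eq_fintype_card]; rfl, four_mem, three_not_mem⟩

end Pool.Agent.Results.MP_2beb52_al.BaseGap
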